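import Pool.Agent.J4H61.QB.Stm5
import Pool.Agent.J4H3.QB.Ksa
import Pool.Agent.J4H16.QB.Dps

set_option autoImplicit false

/-! # Project QB, piece (LOW) (helper70) -/

open Matrix MeasureTheory
open scoped ComplexOrder

namespace Pool.Agent.J4H70.QB
open Pool.Agent.V11219.MomentOp Pool.Agent.J4H61.QB

theorem tp_single {d : ℕ} (t : ℕ) (Φ : Mat d →ₗ[ℂ] Mat d) (i j k l : Fin t → Fin d) :
    tensorPow t Φ (Matrix.single i j 1) k l = ∏ s, Φ (Matrix.single (i s) (j s) 1) (k s) (l s) := by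
  simp only [tensorPow, LinearMap.coe_mk, AddHom.coe_mk, Matrix.of_apply]
  rw [Finset.sum_eq_single i, Finset.sum_eq_single j]
  · simp
  · intro b _ hb
    simp [Matrix.single_apply, Ne.symm hb]
  · simp
  · intro b _ hb
    simp [Matrix.single_apply, Ne.symm hb]
  · simp

theorem tr_dilated {d dE : ℕ} (ψ : Fin dE → ℂ) (hψ : ∑ x, ‖ψ x‖ ^ 2 = 1)
    (V : Matrix.unitaryGroup (Fin d × Fin dE) ℂ) (X : Mat d) :
    (dilated ψ (V : Matrix (Fin d × Fin dE) (Fin d × Fin dE) ℂ) X).trace = X.trace := by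
  set M : Matrix (Fin d × Fin dE) (Fin d × Fin dE) ℂ :=
    Matrix.kronecker X (Matrix.vecMulVec ψ (star ψ)) with hM
  set W : Matrix (Fin d × Fin dE) (Fin d × Fin dE) ℂ := V.1 with hW
  have hd : dilated ψ W X = ∑ x : Fin dE, (W * M * Wᴴ).submatrix (fun k => (k, x)) (fun k => (k, x)) := by
    ext k l
    rw [Matrix.sum_apply]
    rfl
  have hWW : Wᴴ * W = 1 := (Matrix.mem_unitaryGroup_iff').1 V.2
  have h1 : (dilated ψ W X).trace = (W * M * Wᴴ).trace := by
    rw [hd, Matrix.trace_sum]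
    simp only [Matrix.trace, Matrix.diag_apply, Matrix.submatrix_apply]
    rw [Fintype.sum_prod_type, Finset.sum_comm]
  rw [h1, Matrix.trace_mul_comm, ← Matrix.mul_assoc, hWW, Matrix.one_mul, hM]
  have h2 := Matrix.trace_kronecker X (Matrix.vecMulVec ψ (star ψ))
  rw [Pool.Agent.J4H16.QB.psi_trace ψ hψ, mul_one] at h2
  exact h2

theorem tr_single {n : Type*} [Fintype n] [DecidableEq n] (i j : n) :
    (Matrix.single i j (1 : ℂ)).trace = if i = j then 1 else 0 := by
  rw [Matrix.trace]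
  simp only [Matrix.diag_apply, Matrix.single_apply]
  by_cases h : i = j
  · subst h
    simp
  · rw [if_neg h]
    apply Finset.sum_eq_zero
    intro k _
    rw [if_neg]
    rintro ⟨h1, h2⟩
    exact h (h1.trans h2.symm)

/-- the trace of the tensor power of a trace preserving map at a matrix unit -/
theorem tr_tp {d : ℕ} (t : ℕ) (Φ : Mat d →ₗ[ℂ] Mat d) (hΦ : ∀ X, (Φ X).trace = X.trace)
    (i j : Fin t → Fin d) :
    ∑ k, tensorPow t Φ (Matrix.single i j 1) k k = if i = j then 1 else 0 := by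
  have h1 : ∑ k : Fin t → Fin d, tensorPow t Φ (Matrix.single i j 1) k k =
      ∏ s, ∑ a, Φ (Matrix.single (i s) (j s) 1) a a := by
    rw [Finset.prod_univ_sum, Fintype.piFinset_univ]
    exact Finset.sum_congr rfl (fun k _ => tp_single t Φ i j k k)
  rw [h1]
  have h2 : ∀ s, ∑ a, Φ (Matrix.single (i s) (j s) 1) a a = if i s = j s then 1 else 0 := by
    intro s
    have := hΦ (Matrix.single (i s) (j s) 1)
    rw [tr_single] at this
    exact this
  rw [Finset.prod_congr rfl (fun s _ => h2 s)]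
  by_cases h : i = j
  · subst h
    simp
  · rw [if_neg h]
    obtain ⟨s, hs⟩ := Function.ne_iff.1 h
    exact Finset.prod_eq_zero (Finset.mem_univ s) (if_neg hs)

/-- a linear map which preserves the trace of the matrix units preserves the trace -/
theorem tr_of_single {n : Type*} [Fintype n] [DecidableEq n]
    (A : Matrix n n ℂ →ₗ[ℂ] Matrix n n ℂ)
    (h : ∀ i j, (A (Matrix.single i j 1)).trace = if i = j then 1 else 0) (X : Matrix n n ℂ) :
    (A X).trace = X.trace := by
  conv_lhs => rw [Matrix.matrix_eq_sum_single X]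
  have h1 : ∀ i j, Matrix.single i j (X i j) = (X i j) • Matrix.single i j (1 : ℂ) := by
    intro i j
    simp [Matrix.smul_single]
  simp only [map_sum, h1, map_smul, Matrix.trace_sum, Matrix.trace_smul, h, smul_eq_mul]
  rw [Matrix.trace]
  apply Finset.sum_congr rfl
  intro i _
  rw [Finset.sum_eq_single i]
  · simp
  · intro j _ hj
    rw [if_neg (Ne.symm hj), mul_zero]
  · intro hi
    exact absurd (Finset.mem_univ i) hi

theorem tr_cOp (t d dE : ℕ) (ψ : Fin dE → ℂ) (hψ : ∑ x, ‖ψ x‖ ^ 2 = 1) (X : MatT d t) :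
    (cOp t d dE ψ X).trace = X.trace := by
  apply tr_of_single
  intro i j
  rw [Matrix.trace]
  simp only [Matrix.diag_apply]
  have h1 : ∀ k : Fin t → Fin d, cOp t d dE ψ (Matrix.single i j 1) k k =
      ∫ V : Matrix.unitaryGroup (Fin d × Fin dE) ℂ,
        tensorPow t (dilated (d := d) ψ (V : Matrix (Fin d × Fin dE) (Fin d × Fin dE) ℂ))
          (Matrix.single i j 1) k k ∂(haarU (Fin d × Fin dE)) :=
    fun k => Pool.Agent.J4H3.QB.cOp_single ψ i j k k
  rw [Finset.sum_congr rfl (fun k _ => h1 k), ← integral_finsetSum]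
  · have h2 : ∀ V : Matrix.unitaryGroup (Fin d × Fin dE) ℂ,
        ∑ k, tensorPow t (dilated (d := d) ψ (V : Matrix (Fin d × Fin dE) (Fin d × Fin dE) ℂ))
          (Matrix.single i j 1) k k = if i = j then 1 else 0 :=
      fun V => tr_tp t _ (tr_dilated ψ hψ V) i j
    simp only [h2]
    rw [integral_const]
    simp
  · intro k _
    exact Pool.Agent.J4H3.QB.cint _ (Pool.Agent.J4H3.QB.cont_T ψ _ _ _)

theorem tr_pow {n : Type*} [Fintype n] [DecidableEq n]
    (A : Matrix n n ℂ →ₗ[ℂ] Matrix n n ℂ) (h : ∀ X, (A X).trace = X.trace) (k : ℕ)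
    (X : Matrix n n ℂ) : ((A ^ k) X).trace = X.trace := by
  induction k generalizing X with
  | zero => rfl
  | succ k ih =>
    rw [pow_succ']
    show (A ((A ^ k) X)).trace = X.trace
    rw [h, ih]

/-- the norm of a trace preserving map -/
theorem one_le_hs {d t : ℕ} (hd : 1 ≤ d) (A : MatT d t →ₗ[ℂ] MatT d t)
    (h : ∀ X, (A X).trace = X.trace) : 1 ≤ hsNormSq A := by
  classical
  haveI : Nonempty (Fin d) := ⟨⟨0, hd⟩⟩
  set D : ℝ := (Fintype.card (Fin t → Fin d) : ℝ) with hD
  have hD0 : 0 < D := by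
    have : 0 < Fintype.card (Fin t → Fin d) := Fintype.card_pos
    rw [hD]
    exact_mod_cast this
  have h1 : ∀ i : Fin t → Fin d, 1 ≤ D * ∑ k, ‖A (Matrix.single i i 1) k k‖ ^ 2 := by
    intro i
    have h2 : (A (Matrix.single i i 1)).trace = 1 := by
      rw [h, tr_single, if_pos rfl]
    have h3 : (1 : ℝ) ≤ ∑ k, ‖A (Matrix.single i i 1) k k‖ := by
      calc (1 : ℝ) = ‖(A (Matrix.single i i 1)).trace‖ := by rw [h2, norm_one]
        _ ≤ ∑ k, ‖A (Matrix.single i i 1) k k‖ := norm_sum_le _ _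
    have h4 := sq_sum_le_card_mul_sum_sq (s := (Finset.univ : Finset (Fin t → Fin d)))
      (f := fun k => ‖A (Matrix.single i i 1) k k‖)
    calc (1 : ℝ) = 1 ^ 2 := (one_pow 2).symm
      _ ≤ (∑ k, ‖A (Matrix.single i i 1) k k‖) ^ 2 := pow_le_pow_left₀ zero_le_one h3 2
      _ ≤ _ := h4
      _ = D * ∑ k, ‖A (Matrix.single i i 1) k k‖ ^ 2 := by rw [Finset.card_univ]
  have h5 : D * 1 ≤ D * ∑ i : Fin t → Fin d, ∑ k, ‖A (Matrix.single i i 1) k k‖ ^ 2 := by
    have h6 : D * 1 = ∑ _i : Fin t → Fin d, (1 : ℝ) := by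
      rw [Finset.sum_const, Finset.card_univ, nsmul_eq_mul]
    rw [h6, Finset.mul_sum]
    exact Finset.sum_le_sum (fun i _ => h1 i)
  have h7 := le_of_mul_le_mul_left h5 hD0
  refine h7.trans ?_
  rw [hsNormSq]
  apply Finset.sum_le_sum
  intro i _
  have h8 : ∑ k, ‖A (Matrix.single i i 1) k k‖ ^ 2 ≤ ∑ k, ∑ l, ‖A (Matrix.single i i 1) k l‖ ^ 2 := by
    apply Finset.sum_le_sum
    intro k _
    exact Finset.single_le_sum (f := fun l => ‖A (Matrix.single i i 1) k l‖ ^ 2)
      (fun l _ => sq_nonneg _) (Finset.mem_univ k)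
  refine h8.trans ?_
  exact Finset.single_le_sum (f := fun j => ∑ k, ∑ l, ‖A (Matrix.single i j 1) k l‖ ^ 2)
    (fun j _ => Finset.sum_nonneg (fun k _ => Finset.sum_nonneg (fun l _ => sq_nonneg _)))
    (Finset.mem_univ i)

theorem depol_norm (d t : ℕ) (hd : 1 ≤ d) : hsNormSq (tensorPow t (depol d)) = 1 := by
  classical
  have hdr : (d : ℝ) ≠ 0 := by
    have : (1 : ℝ) ≤ d := by exact_mod_cast hd
    linarith
  have h1 : ∀ i j k l : Fin t → Fin d,
      ‖tensorPow t (depol d) (Matrix.single i j 1) k l‖ ^ 2 =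
        if i = j then (if k = l then (1 / (d : ℝ) ^ 2) ^ t else 0) else 0 := by
    intro i j k l
    rw [tp_single]
    have h2 : ∀ s, depol d (Matrix.single (i s) (j s) 1) (k s) (l s) =
        (if i s = j s then 1 else 0) / d * (if k s = l s then 1 else 0) := by
      intro s
      show (((Matrix.single (i s) (j s) (1 : ℂ)).trace / d) • (1 : Mat d)) (k s) (l s) = _
      rw [tr_single, Matrix.smul_apply, Matrix.one_apply, smul_eq_mul]
    rw [Finset.prod_congr rfl (fun s _ => h2 s)]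
    by_cases hij : i = j
    · subst hij
      by_cases hkl : k = l
      · subst hkl
        simp only [if_true, mul_one]
        rw [Finset.prod_const, Finset.card_univ, Fintype.card_fin, norm_pow, norm_div, norm_one,
          Complex.norm_natCast, ← pow_mul, mul_comm t 2, pow_mul]
        congr 1
        rw [div_pow, one_pow]
      · rw [if_pos rfl, if_neg hkl]
        obtain ⟨s, hs⟩ := Function.ne_iff.1 hkl
        rw [Finset.prod_eq_zero (Finset.mem_univ s) (by rw [if_neg hs, mul_zero])]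
        simp
    · rw [if_neg hij]
      obtain ⟨s, hs⟩ := Function.ne_iff.1 hij
      rw [Finset.prod_eq_zero (Finset.mem_univ s) (by rw [if_neg hs, zero_div, zero_mul])]
      simp
  rw [hsNormSq]
  simp only [h1]
  have h3 : ∀ i j : Fin t → Fin d, ∑ k : Fin t → Fin d, ∑ l : Fin t → Fin d,
      (if i = j then (if k = l then (1 / (d : ℝ) ^ 2) ^ t else 0) else 0) =
        if i = j then ((d : ℝ) ^ t) * (1 / (d : ℝ) ^ 2) ^ t else 0 := by
    intro i j
    by_cases hij : i = j
    · simp only [if_pos hij]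
      simp
    · simp only [if_neg hij]
      simp
  simp only [h3]
  rw [Finset.sum_congr rfl (fun i _ => Finset.sum_ite_eq Finset.univ i (fun _ => _))]
  simp only [Finset.mem_univ, if_true]
  rw [Finset.sum_const, Finset.card_univ, Fintype.card_fun, Fintype.card_fin, Fintype.card_fin,
    nsmul_eq_mul]
  push_cast
  rw [← mul_pow, ← mul_pow]
  have : (d : ℝ) * (d * (1 / (d : ℝ) ^ 2)) = 1 := by field_simp
  rw [this, one_pow]

theorem t_LOW : S_LOW := by
  intro t k d dE ψ hd hψ
  refine ⟨depol_norm d t hd, ?_⟩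
  exact one_le_hs hd (cOp t d dE ψ ^ k) (tr_pow _ (tr_cOp t d dE ψ hψ) k)

end Pool.Agent.J4H70.QB
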